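import Pool.Agent.Helper72.FX.StK

/-!
# Project FX, module PEB: additivity of the value computed with a lattice on exact sequences
-/

set_option autoImplicit false

namespace Pool.Agent.Helper63.FX

open Polynomial Pool.Agent.Helper72.FX

/-- exactness of the row of kernels (3 x 3 lemma) -/
theorem ker_row {R : Type} [CommRing R] {A1 A A2 B1 B B2 : Type}
    [AddCommGroup A1] [Module R A1] [AddCommGroup A] [Module R A] [AddCommGroup A2] [Module R A2]
    [AddCommGroup B1] [Module R B1] [AddCommGroup B] [Module R B] [AddCommGroup B2] [Module R B2]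
    (a : A1 →ₗ[R] A) (b : A →ₗ[R] A2) (i : B1 →ₗ[R] B) (p : B →ₗ[R] B2)
    (f1 : A1 →ₗ[R] B1) (f : A →ₗ[R] B) (f2 : A2 →ₗ[R] B2)
    (ha : Function.Injective a) (hab : Function.Exact a b) (hb : Function.Surjective b)
    (hi : Function.Injective i) (hip : Function.Exact i p)
    (hf1 : Function.Surjective f1)
    (c1 : ∀ x, f (a x) = i (f1 x)) (c2 : ∀ x, f2 (b x) = p (f x))
    (h1 : ∀ x ∈ LinearMap.ker f1, a x ∈ LinearMap.ker f)
    (h2 : ∀ x ∈ LinearMap.ker f, b x ∈ LinearMap.ker f2) :
    Function.Injective (a.restrict h1) ∧ Function.Exact (a.restrict h1) (b.restrict h2) ∧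
      Function.Surjective (b.restrict h2) := by
  refine ⟨?_, ?_, ?_⟩
  · intro x y hxy
    apply Subtype.ext
    apply ha
    have := congrArg Subtype.val hxy
    simpa using this
  · intro y
    constructor
    · intro hy
      have h0 : b (y : A) = 0 := by
        have := congrArg Subtype.val hy
        simpa using this
      obtain ⟨x, hx⟩ := (hab _).1 h0
      have hxk : x ∈ LinearMap.ker f1 := by
        rw [LinearMap.mem_ker]
        apply hi
        rw [← c1, hx, map_zero]
        exact y.2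
      refine ⟨⟨x, hxk⟩, ?_⟩
      apply Subtype.ext
      simpa using hx
    · rintro ⟨x, rfl⟩
      apply Subtype.ext
      simpa using (hab _).2 ⟨(x : A1), rfl⟩
  · intro y
    obtain ⟨g, hg⟩ := hb (y : A2)
    have h0 : p (f g) = 0 := by
      rw [← c2, hg]
      exact y.2
    obtain ⟨z, hz⟩ := (hip _).1 h0
    obtain ⟨h, hh⟩ := hf1 z
    have hk : g - a h ∈ LinearMap.ker f := by
      rw [LinearMap.mem_ker, map_sub, c1, hh, hz, sub_self]
    refine ⟨⟨g - a h, hk⟩, ?_⟩
    apply Subtype.ext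
    have hba : b (a h) = 0 := (hab _).2 ⟨h, rfl⟩
    change b (g - a h) = (y : A2)
    rw [map_sub, hba, sub_zero, hg]

section

variable {B : Type} [CommRing B]

theorem C_smul_eq {Q : Type} [AddCommGroup Q] [Module B Q] [Module B[X] Q]
    [IsScalarTower B B[X] Q] (b : B) (q : Q) : (C b : B[X]) • q = b • q := by
  rw [← Polynomial.algebraMap_eq, algebraMap_smul]

theorem kil_I_of_pid {I : Ideal B} {E s : B} {Q : Type} [AddCommGroup Q] [Module B Q]
    [Module B[X] Q] [IsScalarTower B B[X] Q] (h : kil (pid I E s) Q) (M : Submodule B Q) :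
    kil I M := by
  intro x hx y
  apply Subtype.ext
  have h1 : (C x : B[X]) ∈ pid I E s :=
    Submodule.mem_sup_left (Ideal.mem_map_of_mem C hx)
  have h2 := h (C x) h1 (y : Q)
  rw [C_smul_eq] at h2
  simpa using h2

theorem pel_mem_ker {I : Ideal B} {E s : B} {Q : Type} [AddCommGroup Q] [Module B Q]
    [Module B[X] Q] [IsScalarTower B B[X] Q] (h : kil (pid I E s) Q) (M : Submodule B Q)
    (g : PolynomialModule B M) :
    LinearMap.lsmul B[X] (PolynomialModule B M) (pel E s) g ∈ LinearMap.ker (Phi M) := by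
  rw [LinearMap.mem_ker, LinearMap.lsmul_apply, map_smul]
  exact h _ (Submodule.mem_sup_right (Ideal.mem_span_singleton_self _)) _

theorem Phi_pmap {Q Q' : Type} [AddCommGroup Q] [Module B Q] [Module B[X] Q]
    [IsScalarTower B B[X] Q] [AddCommGroup Q'] [Module B Q'] [Module B[X] Q']
    [IsScalarTower B B[X] Q'] (M : Submodule B Q) (M' : Submodule B Q') (f : Q →ₗ[B[X]] Q')
    (fM : M →ₗ[B] M') (hf : ∀ m : M, (fM m : Q') = f m) (g : PolynomialModule B M) :
    Phi M' (pmap fM g) = f (Phi M g) := by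
  induction g using PolynomialModule.induction_linear with
  | zero => simp
  | add g h hg hh => simp only [map_add, hg, hh]
  | single n m =>
    rw [pmap_single]
    unfold Phi
    rw [plift_single, plift_single, map_smul]
    simp [hf]

theorem af_quot_congr {R : Type} [CommRing R] {P : MC R} {Λ : Type} [AddCommGroup Λ]
    (χ : AF R P Λ) {N : Type} [AddCommGroup N] [Module R N] {S T : Submodule R N} (h : S = T) :
    χ.f (N ⧸ S) = χ.f (N ⧸ T) := by
  subst h
  rfl

theorem af_sub_congr {R : Type} [CommRing R] {P : MC R} {Λ : Type} [AddCommGroup Λ]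
    (χ : AF R P Λ) {N : Type} [AddCommGroup N] [Module R N] {S T : Submodule R N} (h : S = T) :
    χ.f S = χ.f T := by
  subst h
  rfl

theorem fin_quot_congr {R : Type} [CommRing R] {N : Type} [AddCommGroup N] [Module R N]
    {S T : Submodule R N} (h : S = T) (hf : Module.Finite R (N ⧸ T)) :
    Module.Finite R (N ⧸ S) := by
  subst h
  exact hf

theorem cl_quot_congr {R : Type} [CommRing R] (P : MC R) {N : Type} [AddCommGroup N] [Module R N]
    {S T : Submodule R N} (h : S = T) (hf : P (N ⧸ T)) : P (N ⧸ S) := by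
  subst h
  exact hf

theorem fin_sub_congr {R : Type} [CommRing R] {N : Type} [AddCommGroup N] [Module R N]
    {S T : Submodule R N} (h : S = T) (hf : Module.Finite R T) : Module.Finite R S := by
  subst h
  exact hf

theorem cl_sub_congr {R : Type} [CommRing R] (P : MC R) {N : Type} [AddCommGroup N] [Module R N]
    {S T : Submodule R N} (h : S = T) (hf : P T) : P S := by
  subst h
  exact hf

/-- the column `π : M[X] → ker Φ` -/
noncomputable def gcol {I : Ideal B} {E s : B} {Q : Type} [AddCommGroup Q] [Module B Q]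
    [Module B[X] Q] [IsScalarTower B B[X] Q] (h : kil (pid I E s) Q) (M : Submodule B Q) :
    PolynomialModule B M →ₗ[B[X]] LinearMap.ker (Phi M) :=
  (LinearMap.lsmul B[X] (PolynomialModule B M) (pel E s)).codRestrict _ (pel_mem_ker h M)

theorem gcol_range {I : Ideal B} {E s : B} {Q : Type} [AddCommGroup Q] [Module B Q]
    [Module B[X] Q] [IsScalarTower B B[X] Q] (h : kil (pid I E s) Q) (M : Submodule B Q) :
    LinearMap.range (gcol h M) = (LinearMap.range
      (LinearMap.lsmul B[X] (PolynomialModule B M) (pel E s))).comap (LinearMap.ker (Phi M)).subtype :=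
  LinearMap.range_codRestrict _ _ _

theorem gcol_ker {I : Ideal B} {E s : B} {Q : Type} [AddCommGroup Q] [Module B Q]
    [Module B[X] Q] [IsScalarTower B B[X] Q] (h : kil (pid I E s) Q) (M : Submodule B Q) :
    LinearMap.ker (gcol h M) = LinearMap.ker
      (LinearMap.lsmul B[X] (PolynomialModule B M) (pel E s)) :=
  LinearMap.ker_codRestrict _ _ _

end

theorem hPEB : StPEB := by
  intro hSNK hPMX hPTO B _ _ I E s Λ _ χB τ Q1 Q Q2 _ _ _ _ _ _ _ _ _ _ _ _ i p M hk hi hex hp hM hM1
  have hk1 : kil (pid I E s) Q1 := (gd_kil _).inj Q1 Q i hi hk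
  have hk2 : kil (pid I E s) Q2 := (gd_kil _).surj Q Q2 p hp hk
  set M1 : Submodule B Q1 := M.comap (i.restrictScalars B) with hM1def
  set M2 : Submodule B Q2 := M.map (p.restrictScalars B) with hM2def
  let iM : M1 →ₗ[B] M := (i.restrictScalars B).restrict (p := M1) (q := M) (fun x hx => hx)
  let pM : M →ₗ[B] M2 := (p.restrictScalars B).restrict (p := M) (q := M2)
    (fun x hx => Submodule.mem_map_of_mem hx)
  have eiM : ∀ m : M1, (iM m : Q) = i m := fun m => rfl
  have epM : ∀ m : M, (pM m : Q2) = p m := fun m => rfl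
  have hiM : Function.Injective iM := by
    intro x y hxy
    apply Subtype.ext
    apply hi
    rw [← eiM, ← eiM, hxy]
  have hexM : Function.Exact iM pM := by
    intro y
    constructor
    · intro hy
      have h0 : p (y : Q) = 0 := by
        rw [← epM, hy]
        rfl
      obtain ⟨x, hx⟩ := (hex _).1 h0
      refine ⟨⟨x, ?_⟩, ?_⟩
      · change i x ∈ M
        rw [hx]
        exact y.2
      · apply Subtype.ext
        rw [eiM]
        exact hx
    · rintro ⟨x, rfl⟩
      apply Subtype.ext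
      rw [epM, eiM]
      exact (hex _).2 ⟨_, rfl⟩
  have hpM : Function.Surjective pM := by
    rintro ⟨y, hy⟩
    obtain ⟨x, hx, rfl⟩ := hy
    exact ⟨⟨x, hx⟩, rfl⟩
  have c1 : ∀ g, Phi M (pmap iM g) = i (Phi M1 g) := Phi_pmap M1 M i iM eiM
  have c2 : ∀ g, Phi M2 (pmap pM g) = p (Phi M g) := Phi_pmap M M2 p pM epM
  have hM2 : GdL M2 := by
    refine ⟨hM.1.map _, ?_⟩
    intro y
    obtain ⟨x, rfl⟩ := hp y
    obtain ⟨g, rfl⟩ := hM.2 x
    exact ⟨pmap pM g, c2 g⟩
  refine ⟨hM2, ?_⟩
  have fM : Module.Finite B M := Module.Finite.iff_fg.2 hM.1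
  have fM1 : Module.Finite B M1 := Module.Finite.iff_fg.2 hM1.1
  have fM2 : Module.Finite B M2 := Module.Finite.iff_fg.2 hM2.1
  have kM : kil I M := kil_I_of_pid hk M
  have kM1 : kil I M1 := kil_I_of_pid hk1 M1
  have kM2 : kil I M2 := kil_I_of_pid hk2 M2
  have hχ : χB.f M = χB.f M1 + χB.f M2 := χB.exact' M1 M M2 iM pM fM kM hiM hexM hpM
  have hX := hPMX B M1 M M2 iM pM
  have hX' := hPMX B M M2 M2 pM LinearMap.id
  have xi : Function.Injective (pmap iM) := hX.1 hiM
  have xe : Function.Exact (pmap iM) (pmap pM) := hX.2.2.1 hexM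
  have xp : Function.Surjective (pmap pM) := hX'.2.1 hpM
  have h1 : ∀ x ∈ LinearMap.ker (Phi M1), pmap iM x ∈ LinearMap.ker (Phi M) := by
    intro x hx
    rw [LinearMap.mem_ker] at hx ⊢
    rw [c1, hx, map_zero]
  have h2 : ∀ x ∈ LinearMap.ker (Phi M), pmap pM x ∈ LinearMap.ker (Phi M2) := by
    intro x hx
    rw [LinearMap.mem_ker] at hx ⊢
    rw [c2, hx, map_zero]
  obtain ⟨r1, r2, r3⟩ := ker_row (pmap iM) (pmap pM) i p (Phi M1) (Phi M) (Phi M2) xi xe xp hi hex
    hM1.2 c1 c2 h1 h2
  obtain ⟨t1, t2, t3⟩ := hPTO hPMX B I E s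
  have key := hSNK B[X] (kpw (pid I E s) (C E)) (gd_kpw _ _) Λ τ
    (PolynomialModule B M1) (PolynomialModule B M) (PolynomialModule B M2)
    (LinearMap.ker (Phi M1)) (LinearMap.ker (Phi M)) (LinearMap.ker (Phi M2))
    (pmap iM) (pmap pM) ((pmap iM).restrict h1) ((pmap pM).restrict h2)
    (gcol hk1 M1) (gcol hk M) (gcol hk2 M2) xi xe xp r1 r2 r3
    (by
      apply LinearMap.ext
      intro g
      apply Subtype.ext
      change pel E s • pmap iM g = pmap iM (pel E s • g)
      rw [map_smul])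
    (by
      apply LinearMap.ext
      intro g
      apply Subtype.ext
      change pel E s • pmap pM g = pmap pM (pel E s • g)
      rw [map_smul])
    (fin_sub_congr (gcol_ker hk M) (t1 M fM kM).1)
    (cl_sub_congr _ (gcol_ker hk M) (t1 M fM kM).2)
    (fin_sub_congr (gcol_ker hk2 M2) (t1 M2 fM2 kM2).1)
    (cl_sub_congr _ (gcol_ker hk2 M2) (t1 M2 fM2 kM2).2)
    (fin_quot_congr (gcol_range hk1 M1) (t3 Q1 M1 hk1 hM1).1)
    (cl_quot_congr _ (gcol_range hk1 M1) (t3 Q1 M1 hk1 hM1).2)
    (fin_quot_congr (gcol_range hk M) (t3 Q M hk hM).1)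
    (cl_quot_congr _ (gcol_range hk M) (t3 Q M hk hM).2)
  rw [af_quot_congr τ (gcol_range hk M), af_quot_congr τ (gcol_range hk1 M1),
    af_quot_congr τ (gcol_range hk2 M2), af_sub_congr τ (gcol_ker hk M),
    af_sub_congr τ (gcol_ker hk1 M1), af_sub_congr τ (gcol_ker hk2 M2)] at key
  change χB.f M - τ.f (KM E s M) + τ.f (Kn (pel E s) (PolynomialModule B M)) =
    (χB.f M1 - τ.f (KM E s M1) + τ.f (Kn (pel E s) (PolynomialModule B M1))) +
    (χB.f M2 - τ.f (KM E s M2) + τ.f (Kn (pel E s) (PolynomialModule B M2)))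
  have key' : τ.f (KM E s M) - τ.f (Kn (pel E s) (PolynomialModule B M)) =
    (τ.f (KM E s M1) - τ.f (Kn (pel E s) (PolynomialModule B M1))) +
    (τ.f (KM E s M2) - τ.f (Kn (pel E s) (PolynomialModule B M2))) := key
  have : χB.f M - τ.f (KM E s M) + τ.f (Kn (pel E s) (PolynomialModule B M)) =
    χB.f M - (τ.f (KM E s M) - τ.f (Kn (pel E s) (PolynomialModule B M))) := by abel
  rw [this, key', hχ]
  abel

end Pool.Agent.Helper63.FX
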