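import Pool.Agent.Helper72.FX.StC1

/-!
# Project FX, module CA: the function `χ₀` of the first pencil
-/

set_option autoImplicit false

namespace Pool.Agent.Helper63.FX

open Polynomial Pool.Agent.Helper72.FX Pool.Agent.Helper21.FX

noncomputable section

/-- the value of a restricted function at a quotient ring -/
theorem res_val {A A' : Type} [CommRing A] [CommRing A'] (φ : A' →+* A) (ρ : A →+* A')
    {I : Ideal A} {I' : Ideal A'} {Λ : Type} [AddCommGroup Λ] (χ : AF A' (kil I') Λ)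
    (ψ : AF A (kil I) Λ)
    (hψ : ∀ (M : Type) [AddCommGroup M] [Module A M] [Module A' M],
      (∀ (a : A') (m : M), φ a • m = a • m) → ψ.f M = χ.f M)
    (J : Ideal A) (K : Ideal A') (hK : I' ≤ K) (h1 : K.map φ ≤ J) (h2 : J.map ρ ≤ K)
    (h3 : ∀ a : A, a - φ (ρ a) ∈ J) (h4 : ∀ a : A', a - ρ (φ a) ∈ K) :
    ψ.f (A ⧸ J) = χ.f (A' ⧸ K) := by
  let _ : Module A' (A ⧸ J) := Module.compHom (A ⧸ J) φ
  have hs : ∀ (a : A') (m : A ⧸ J), φ a • m = a • m := fun a m => rfl
  rw [hψ (A ⧸ J) hs]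
  have hφ : K ≤ J.comap φ := Ideal.map_le_iff_le_comap.1 h1
  have hρ : J ≤ K.comap ρ := Ideal.map_le_iff_le_comap.1 h2
  let f : A ⧸ J →+* A' ⧸ K := Ideal.quotientMap K ρ hρ
  let g : A' ⧸ K →+* A ⧸ J := Ideal.quotientMap J φ hφ
  have ef : ∀ a : A, f (Ideal.Quotient.mk J a) = Ideal.Quotient.mk K (ρ a) := fun a => rfl
  have eg : ∀ a : A', g (Ideal.Quotient.mk K a) = Ideal.Quotient.mk J (φ a) := fun a => rfl
  let e : (A' ⧸ K) ≃ₗ[A'] (A ⧸ J) :=
    { toFun := g
      map_add' := map_add g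
      map_smul' := by
        intro a y
        obtain ⟨y, rfl⟩ := Ideal.Quotient.mk_surjective y
        rw [RingHom.id_apply, ← hs]
        change g (Ideal.Quotient.mk K (a * y)) = φ a • g (Ideal.Quotient.mk K y)
        rw [eg, eg, map_mul, map_mul]
        rfl
      invFun := f
      left_inv := by
        intro y
        obtain ⟨y, rfl⟩ := Ideal.Quotient.mk_surjective y
        rw [eg, ef]
        symm
        rw [Ideal.Quotient.eq]
        exact h4 y
      right_inv := by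
        intro y
        obtain ⟨y, rfl⟩ := Ideal.Quotient.mk_surjective y
        rw [ef, eg]
        symm
        rw [Ideal.Quotient.eq]
        exact h3 y }
  refine AF.equiv χ (gd_kil I') e.symm ?_ (kil_mono hK (kil_quot K))
  infer_instance

/-- a map sends a span into an ideal -/
private theorem map_span_le {R S : Type} [CommRing R] [CommRing S] (f : R →+* S) (s : Set R)
    (J : Ideal S) (h : ∀ x ∈ s, f x ∈ J) : (Ideal.span s).map f ≤ J := by
  rw [Ideal.map_span, Ideal.span_le]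
  rintro x ⟨y, hy, rfl⟩
  exact h y hy

private theorem two {R : Type} (P : R → Prop) (a b : R) (ha : P a) (hb : P b) :
    ∀ x ∈ ({a, b} : Set R), P x := by
  intro x hx
  rcases Set.mem_insert_iff.1 hx with h | h
  · exact h ▸ ha
  · exact (Set.mem_singleton_iff.1 h) ▸ hb

private theorem three {R : Type} (P : R → Prop) (a b c : R) (ha : P a) (hb : P b) (hc : P c) :
    ∀ x ∈ ({a, b, c} : Set R), P x := by
  intro x hx
  rcases Set.mem_insert_iff.1 hx with h | h
  · exact h ▸ ha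
  · exact two P b c hb hc x h

/-- step 1: from `A` to `A[X]` -/
theorem st1 (hRES : StRES) (A : Type) [CommRing A] (n x y : A) (hn : n ∈ Ideal.span {x, y})
    (par : AF A (kil (Ideal.span {n})) (ZMod 2)) (hp0 : par.f (A ⧸ Ideal.span {n}) = 0)
    (hp1 : par.f (A ⧸ Ideal.span {x, y}) = 1) :
    ∃ χ4 : AF A[X] (kil (Ideal.span {(C n : A[X]), X})) (ZMod 2),
      χ4.f (A[X] ⧸ Ideal.span {(C n : A[X]), X}) = 0 ∧
      χ4.f (A[X] ⧸ Ideal.span {(X : A[X]), C x, C y}) = 1 := by
  have hX4 : (X : A[X]) ∈ Ideal.span {(C n : A[X]), X} :=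
    Ideal.subset_span (Set.mem_insert_of_mem _ rfl)
  have hXJ : (X : A[X]) ∈ Ideal.span {(X : A[X]), C x, C y} :=
    Ideal.subset_span (Set.mem_insert _ _)
  have cc0 : ∀ a : A, Polynomial.constantCoeff (C a : A[X]) = a := by intro a; simp
  have xs : ∀ (J : Ideal A[X]), (X : A[X]) ∈ J → ∀ a : A[X],
      a - C (Polynomial.constantCoeff a) ∈ J := by
    intro J hX a
    have e : a - C (Polynomial.constantCoeff a) = a.divX * X := by
      have h := Polynomial.divX_mul_X_add a
      rw [Polynomial.constantCoeff_apply, sub_eq_iff_eq_add]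
      exact h.symm
    rw [e]
    exact J.mul_mem_left _ hX
  have hm1 : (Ideal.span {n}).map (C : A →+* A[X]) ≤ Ideal.span {(C n : A[X]), X} :=
    map_span_le _ _ _ (fun z hz => by
      rw [Set.mem_singleton_iff.1 hz]
      exact Ideal.subset_span (Set.mem_insert _ _))
  obtain ⟨χ4, h4⟩ := hRES A[X] A (C : A →+* A[X]) (Ideal.span {(C n : A[X]), X})
    (Ideal.span {n}) hm1 (fun a => ⟨_, xs _ hX4 a⟩) (ZMod 2) par
  refine ⟨χ4, ?_, ?_⟩
  · refine (res_val (C : A →+* A[X]) Polynomial.constantCoeff par χ4 h4 _ (Ideal.span {n}) le_rfl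
      hm1 ?_ (xs _ hX4) ?_).trans hp0
    · refine map_span_le _ _ _ (two _ _ _ ?_ ?_)
      · rw [cc0]
        exact Ideal.mem_span_singleton_self _
      · rw [Polynomial.constantCoeff_apply, Polynomial.coeff_X_zero]
        exact Ideal.zero_mem _
    · intro a
      rw [cc0, sub_self]
      exact Ideal.zero_mem _
  · refine (res_val (C : A →+* A[X]) Polynomial.constantCoeff par χ4 h4 _
      (Ideal.span {x, y}) ?_ ?_ ?_ (xs _ hXJ) ?_).trans hp1
    · rw [Ideal.span_le]
      intro z hz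
      rw [Set.mem_singleton_iff.1 hz]
      exact hn
    · refine map_span_le _ _ _ (two _ _ _ ?_ ?_)
      · exact Ideal.subset_span (Set.mem_insert_of_mem _ (Set.mem_insert _ _))
      · exact Ideal.subset_span (Set.mem_insert_of_mem _ (Set.mem_insert_of_mem _ rfl))
    · refine map_span_le _ _ _ (three _ _ _ _ ?_ ?_ ?_)
      · rw [Polynomial.constantCoeff_apply, Polynomial.coeff_X_zero]
        exact Ideal.zero_mem _
      · rw [cc0]
        exact Ideal.subset_span (Set.mem_insert _ _)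
      · rw [cc0]
        exact Ideal.subset_span (Set.mem_insert_of_mem _ rfl)
    · intro a
      rw [cc0, sub_self]
      exact Ideal.zero_mem _

/-- transport along an isomorphism -/
theorem st3 (hRES : StRES) (R B : Type) [CommRing R] [CommRing B] (Ph : R →+* B) (Ps : B →+* R)
    (h12 : ∀ a, Ph (Ps a) = a) (h21 : ∀ a, Ps (Ph a) = a) (I' J' : Ideal R) (I J : Ideal B)
    (hIJ : I' ≤ J') (hm2 : I'.map Ph ≤ I) (hm3 : J'.map Ph ≤ J) (hm4 : I.map Ps ≤ I')
    (hm5 : J.map Ps ≤ J') (χ5 : AF R (kil I') (ZMod 2)) (w0 : χ5.f (R ⧸ I') = 0)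
    (w1 : χ5.f (R ⧸ J') = 1) :
    ∃ χ0 : AF B (kil I) (ZMod 2), χ0.f (B ⧸ I) = 0 ∧ χ0.f (B ⧸ J) = 1 := by
  have m1 : ∀ (J : Ideal B) (a : B), a - Ph (Ps a) ∈ J := by
    intro J a
    rw [h12, sub_self]; exact J.zero_mem
  have m2 : ∀ (J : Ideal R) (a : R), a - Ps (Ph a) ∈ J := by
    intro J a
    rw [h21, sub_self]; exact J.zero_mem
  obtain ⟨χ0, h0⟩ := hRES B R Ph I I' hm2 (fun a => ⟨Ps a, m1 _ a⟩) (ZMod 2) χ5
  refine ⟨χ0, ?_, ?_⟩
  · exact (res_val Ph Ps χ5 χ0 h0 I I' le_rfl hm2 hm4 (m1 _) (m2 _)).trans w0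
  · exact (res_val Ph Ps χ5 χ0 h0 J J' hIJ hm3 hm5 (m1 _) (m2 _)).trans w1

section gen

variable {A : Type} [CommRing A]

private def Ph (f4 : A →+* B8) : MvPolynomial (Fin 4) A →+* B8 :=
  MvPolynomial.eval₂Hom f4 ![(C m7 : B8), C x7, C z7, X]

private def g7 (cA : ℂ →+* A) (a b t s : A) : B7 →+* MvPolynomial (Fin 4) A :=
  MvPolynomial.eval₂Hom (MvPolynomial.C.comp cA)
  ![(MvPolynomial.C a : MvPolynomial (Fin 4) A), MvPolynomial.C b, MvPolynomial.C t,
    MvPolynomial.C s, MvPolynomial.X 0, MvPolynomial.X 1, MvPolynomial.X 2]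

private def Ps (cA : ℂ →+* A) (a b t s : A) : B8 →+* MvPolynomial (Fin 4) A :=
  eval₂RingHom (g7 cA a b t s) (MvPolynomial.X 3)

private theorem Ph_C (f4 : A →+* B8) (p : A) : Ph f4 (MvPolynomial.C p) = f4 p := by
  unfold Ph
  rw [MvPolynomial.coe_eval₂Hom, MvPolynomial.eval₂_C]

private theorem Ph_X (f4 : A →+* B8) (i : Fin 4) :
    Ph f4 (MvPolynomial.X i) = (![(C m7 : B8), C x7, C z7, X] : Fin 4 → B8) i := by
  unfold Ph
  rw [MvPolynomial.coe_eval₂Hom, MvPolynomial.eval₂_X]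

private theorem Ps_C (cA : ℂ →+* A) (a b t s : A) (p : B7) :
    Ps cA a b t s (C p) = g7 cA a b t s p := by
  unfold Ps
  rw [coe_eval₂RingHom, eval₂_C]
private theorem Ps_X (cA : ℂ →+* A) (a b t s : A) : Ps cA a b t s X = MvPolynomial.X 3 := by
  unfold Ps
  rw [coe_eval₂RingHom, eval₂_X]
private theorem g7_X (cA : ℂ →+* A) (a b t s : A) (i : Fin 7) :
    g7 cA a b t s (MvPolynomial.X i) =
    (![(MvPolynomial.C a : MvPolynomial (Fin 4) A), MvPolynomial.C b, MvPolynomial.C t,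
    MvPolynomial.C s, MvPolynomial.X 0, MvPolynomial.X 1, MvPolynomial.X 2] :
      Fin 7 → MvPolynomial (Fin 4) A) i := by
  unfold g7
  rw [MvPolynomial.coe_eval₂Hom, MvPolynomial.eval₂_X]
private theorem g7_C (cA : ℂ →+* A) (a b t s : A) (r : ℂ) :
    g7 cA a b t s (MvPolynomial.C r) = MvPolynomial.C (cA r) := by
  unfold g7
  rw [MvPolynomial.coe_eval₂Hom, MvPolynomial.eval₂_C]
  rfl

theorem genCA (hEXM : StEXM) (hEXT : EXTc) (hRES : StRES) (hPMQ : StPMQ) [IsNoetherianRing A]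
    (f4 : A →+* B8) (cA : ℂ →+* A) (a b t s : A) (fa : f4 a = C a7) (fb : f4 b = C b7)
    (ft : f4 t = C t7) (fs : f4 s = C s7) (fc : ∀ r, f4 (cA r) = C (MvPolynomial.C r))
    (hext : ∀ g : A →+* MvPolynomial (Fin 4) A, (∀ r, g (cA r) = MvPolynomial.C (cA r)) →
      g a = MvPolynomial.C a → g b = MvPolynomial.C b → g t = MvPolynomial.C t →
      g s = MvPolynomial.C s → g = MvPolynomial.C) (n : A) (hn : n = 2 * b + t * b ^ 2 - a ^ 2)
    (χ4 : AF A (kil (Ideal.span {n, s})) (ZMod 2)) (v0 : χ4.f (A ⧸ Ideal.span {n, s}) = 0)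
    (v1 : χ4.f (A ⧸ Ideal.span {s, a, b}) = 1) : CAx := by
  have h12 : ∀ p : B8, Ph f4 (Ps cA a b t s p) = p := by
    intro p
    have h : (Ph f4).comp (Ps cA a b t s) = RingHom.id B8 := by
      refine Polynomial.ringHom_ext' ?_ ?_
      · refine MvPolynomial.ringHom_ext ?_ ?_
        · intro r
          rw [RingHom.comp_apply, RingHom.comp_apply, Ps_C, g7_C, Ph_C, fc]
          rfl
        · intro i
          rw [RingHom.comp_apply, RingHom.comp_apply, Ps_C, g7_X]
          fin_cases i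
          · exact (Ph_C f4 a).trans fa
          · exact (Ph_C f4 b).trans fb
          · exact (Ph_C f4 t).trans ft
          · exact (Ph_C f4 s).trans fs
          · exact Ph_X f4 0
          · exact Ph_X f4 1
          · exact Ph_X f4 2
      · rw [RingHom.comp_apply, Ps_X, Ph_X]
        rfl
    exact congrArg (fun k : B8 →+* B8 => k p) h
  have h21 : ∀ p : MvPolynomial (Fin 4) A, Ps cA a b t s (Ph f4 p) = p := by
    intro p
    have h : (Ps cA a b t s).comp (Ph f4) = RingHom.id _ := by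
      refine MvPolynomial.ringHom_ext ?_ ?_
      · intro p
        rw [RingHom.comp_apply, Ph_C]
        have h2 : ((Ps cA a b t s).comp f4) = (MvPolynomial.C : A →+* MvPolynomial (Fin 4) A) := by
          apply hext
          · intro r
            rw [RingHom.comp_apply, fc, Ps_C, g7_C]
          · rw [RingHom.comp_apply, fa, Ps_C]
            exact g7_X cA a b t s 0
          · rw [RingHom.comp_apply, fb, Ps_C]
            exact g7_X cA a b t s 1
          · rw [RingHom.comp_apply, ft, Ps_C]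
            exact g7_X cA a b t s 2
          · rw [RingHom.comp_apply, fs, Ps_C]
            exact g7_X cA a b t s 3
        exact congrArg (fun k : A →+* MvPolynomial (Fin 4) A => k p) h2
      · intro i
        rw [RingHom.comp_apply, Ph_X]
        fin_cases i
        · exact (Ps_C cA a b t s _).trans (g7_X cA a b t s 4)
        · exact (Ps_C cA a b t s _).trans (g7_X cA a b t s 5)
        · exact (Ps_C cA a b t s _).trans (g7_X cA a b t s 6)
        · exact Ps_X cA a b t s
    exact congrArg (fun k : MvPolynomial (Fin 4) A →+* MvPolynomial (Fin 4) A => k p) h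
  have fn : f4 n = C nu7 := by
    rw [hn, f4.map_sub, f4.map_add, f4.map_mul, f4.map_mul, f4.map_pow, f4.map_pow, fa, fb, ft,
      map_ofNat]
    unfold nu7 nu
    rw [C_sub, C_add, C_mul, C_mul, C_pow, C_pow, map_ofNat]
  have pn : Ps cA a b t s (C nu7) = MvPolynomial.C n := by
    rw [← fn, ← Ph_C f4, h21]
  have psa : Ps cA a b t s (C a7) = MvPolynomial.C a := by rw [← fa, ← Ph_C f4, h21]
  have psb : Ps cA a b t s (C b7) = MvPolynomial.C b := by rw [← fb, ← Ph_C f4, h21]
  have pss : Ps cA a b t s (C s7) = MvPolynomial.C s := by rw [← fs, ← Ph_C f4, h21]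
  have hIJ : Ideal.span {n, s} ≤ Ideal.span {s, a, b} := by
    rw [Ideal.span_le]
    refine two (fun x => x ∈ Ideal.span {s, a, b}) _ _ ?_ ?_
    · have ha : a ∈ Ideal.span {s, a, b} :=
        Ideal.subset_span (Set.mem_insert_of_mem _ (Set.mem_insert _ _))
      have hb : b ∈ Ideal.span {s, a, b} :=
        Ideal.subset_span (Set.mem_insert_of_mem _ (Set.mem_insert_of_mem _ rfl))
      have e : n = (2 + t * b) * b + (-a) * a := by rw [hn]; ring
      rw [e]
      exact Ideal.add_mem _ (Ideal.mul_mem_left _ _ hb) (Ideal.mul_mem_left _ _ ha)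
    · exact Ideal.subset_span (Set.mem_insert _ _)
  obtain ⟨χ5, h5⟩ := hEXM hEXT hRES hPMQ A (Ideal.span {n, s}) (ZMod 2) χ4 4
  refine st3 hRES _ B8 (Ph f4) (Ps cA a b t s) h12 h21 _ _ _ _ (Ideal.map_mono hIJ) ?_ ?_ ?_ ?_ χ5
    ((h5 _ le_rfl).trans v0) ((h5 _ hIJ).trans v1)
  · rw [Ideal.map_map]
    refine map_span_le _ _ _ (two _ _ _ ?_ ?_)
    · rw [RingHom.comp_apply, Ph_C, fn]
      exact Ideal.subset_span (Set.mem_insert_of_mem _ rfl)
    · rw [RingHom.comp_apply, Ph_C, fs]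
      exact Ideal.subset_span (Set.mem_insert _ _)
  · rw [Ideal.map_map]
    refine map_span_le _ _ _ (three _ _ _ _ ?_ ?_ ?_)
    · rw [RingHom.comp_apply, Ph_C, fs]
      exact Ideal.subset_span (Set.mem_insert _ _)
    · rw [RingHom.comp_apply, Ph_C, fa]
      exact Ideal.subset_span (Set.mem_insert_of_mem _ (Set.mem_insert _ _))
    · rw [RingHom.comp_apply, Ph_C, fb]
      exact Ideal.subset_span (Set.mem_insert_of_mem _ (Set.mem_insert_of_mem _ rfl))
  · refine map_span_le (Ps cA a b t s) _ _ (two _ _ _ ?_ ?_)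
    · rw [pss]
      exact Ideal.mem_map_of_mem _ (Ideal.subset_span (Set.mem_insert_of_mem _ rfl))
    · rw [pn]
      exact Ideal.mem_map_of_mem _ (Ideal.subset_span (Set.mem_insert _ _))
  · refine map_span_le (Ps cA a b t s) _ _ (three _ _ _ _ ?_ ?_ ?_)
    · rw [pss]
      exact Ideal.mem_map_of_mem _ (Ideal.subset_span (Set.mem_insert _ _))
    · rw [psa]
      exact Ideal.mem_map_of_mem _ (Ideal.subset_span (Set.mem_insert_of_mem _ (Set.mem_insert _ _)))
    · rw [psb]
      exact Ideal.mem_map_of_mem _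
        (Ideal.subset_span (Set.mem_insert_of_mem _ (Set.mem_insert_of_mem _ rfl)))

end gen

private theorem nu3_mem : nu3 ∈ Ideal.span {(MvPolynomial.X 0 : P3), MvPolynomial.X 1} := by
  have h0 : (MvPolynomial.X 0 : P3) ∈ Ideal.span {(MvPolynomial.X 0 : P3), MvPolynomial.X 1} :=
    Ideal.subset_span (Set.mem_insert _ _)
  have h1 : (MvPolynomial.X 1 : P3) ∈ Ideal.span {(MvPolynomial.X 0 : P3), MvPolynomial.X 1} :=
    Ideal.subset_span (Set.mem_insert_of_mem _ rfl)
  have e : nu3 = (2 + MvPolynomial.X 2 * MvPolynomial.X 1 : P3) * MvPolynomial.X 1 +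
      (-(MvPolynomial.X 0) : P3) * MvPolynomial.X 0 := by
    unfold nu3 nu
    ring
  rw [e]
  exact Ideal.add_mem _ (Ideal.mul_mem_left _ _ h1) (Ideal.mul_mem_left _ _ h0)

private def f3 : P3 →+* B8 :=
  MvPolynomial.eval₂Hom ((C : B7 →+* B8).comp MvPolynomial.C) ![(C a7 : B8), C b7, C t7]

private theorem f3_C (r : ℂ) : f3 (MvPolynomial.C r) = C (MvPolynomial.C r) := by
  unfold f3
  rw [MvPolynomial.coe_eval₂Hom, MvPolynomial.eval₂_C]
  rfl

private theorem f3_X (i : Fin 3) :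
    f3 (MvPolynomial.X i) = (![(C a7 : B8), C b7, C t7] : Fin 3 → B8) i := by
  unfold f3
  rw [MvPolynomial.coe_eval₂Hom, MvPolynomial.eval₂_X]

theorem hCA : StCA := by
  intro hPAR hEXM hEXT hRES hPMQ
  obtain ⟨par, hp0, hp1⟩ := hPAR
  obtain ⟨χ4, v0, v1⟩ := st1 hRES P3 nu3 (MvPolynomial.X 0) (MvPolynomial.X 1) nu3_mem par hp0 hp1
  refine genCA hEXM hEXT hRES hPMQ (eval₂RingHom f3 (C s7))
    ((C : P3 →+* P3[X]).comp MvPolynomial.C) (C (MvPolynomial.X 0)) (C (MvPolynomial.X 1))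
    (C (MvPolynomial.X 2)) X ?_ ?_ ?_ ?_ ?_ ?_ (C nu3) ?_ χ4 v0 v1
  · rw [coe_eval₂RingHom, eval₂_C]; exact f3_X 0
  · rw [coe_eval₂RingHom, eval₂_C]; exact f3_X 1
  · rw [coe_eval₂RingHom, eval₂_C]; exact f3_X 2
  · rw [coe_eval₂RingHom, eval₂_X]
  · intro r
    rw [RingHom.comp_apply, coe_eval₂RingHom, eval₂_C]
    exact f3_C r
  · intro g h0 h1 h2 h3 h4
    refine Polynomial.ringHom_ext' ?_ h4
    refine MvPolynomial.ringHom_ext ?_ ?_
    · intro r
      exact h0 r
    · intro i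
      fin_cases i
      · exact h1
      · exact h2
      · exact h3
  · unfold nu3 nu
    rw [C_sub, C_add, C_mul, C_mul, C_pow, C_pow, map_ofNat]

end

end Pool.Agent.Helper63.FX
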