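import Pool.Agent.Helper84.FX.StX

/-!
# Project FX, module Y1: the part `U ≠ 0` of `Y`
-/

set_option autoImplicit false

namespace Pool.Agent.Helper63.FX

open Set Pool.Agent.Helper84.FX Pool.Agent.Helper72.FX

noncomputable section

private def gY (q : ℂ × (Fin 12 → ℂ)) : Fin 2 ⊕ Fin 12 → ℂ :=
  Sum.elim ![q.1, MvPolynomial.eval q.2 FP / q.1] q.2

private theorem gY0 (q : ℂ × (Fin 12 → ℂ)) : gY q (Sum.inl 0) = q.1 := rfl

private theorem gY1 (q : ℂ × (Fin 12 → ℂ)) :
    gY q (Sum.inl 1) = MvPolynomial.eval q.2 FP / q.1 := rfl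

private theorem gY2 (q : ℂ × (Fin 12 → ℂ)) (j : Fin 12) : gY q (Sum.inr j) = q.2 j := rfl

private theorem memYY (y : Fin 2 ⊕ Fin 12 → ℂ) : y ∈ YY FP ↔
    y (Sum.inl 0) * y (Sum.inl 1) = MvPolynomial.eval (fun j => y (Sum.inr j)) FP := Iff.rfl

theorem hY1 : StWCG → StEV → StKSM → StY1 := by
  intro hW _ _ U
  refine hW.2.1 _ _ _ _ toY gY ?_ ?_ ?_ ?_
  · refine ⟨?_, ?_⟩
    · apply Continuous.continuousOn
      unfold toY
      fun_prop
    · intro y hy
      exact ⟨hy.1.2, hy.2⟩
  · refine ⟨?_, ?_⟩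
    · rw [continuousOn_pi]
      rintro (k | j)
      · fin_cases k
        · exact continuous_fst.continuousOn
        · change ContinuousOn (fun q : ℂ × (Fin 12 → ℂ) => MvPolynomial.eval q.2 FP / q.1) _
          refine ContinuousOn.div ?_ continuous_fst.continuousOn (fun q hq => hq.2)
          exact ((MvPolynomial.continuous_eval FP).comp continuous_snd).continuousOn
      · exact ((continuous_apply j).comp continuous_snd).continuousOn
    · intro q hq
      refine ⟨⟨?_, ?_⟩, ?_⟩
      · rw [memYY, gY0, gY1]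
        have h : (fun j => gY q (Sum.inr j)) = q.2 := rfl
        rw [h, mul_div_cancel₀ _ hq.2]
      · exact hq.1
      · exact hq.2
  · intro y hy
    have hy1 := (memYY y).1 hy.1.1
    funext i
    rcases i with (k | j)
    · fin_cases k
      · rfl
      · change MvPolynomial.eval (fun j => y (Sum.inr j)) FP / y (Sum.inl 0) = y (Sum.inl 1)
        rw [← hy1, mul_div_cancel_left₀ _ hy.2]
    · rfl
  · intro q _
    rfl

end

end Pool.Agent.Helper63.FX
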